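import Pool.Agent.Helper18.CPC.St

/-! CPC, module CP: compactness of the space of all points. -/

set_option autoImplicit false

open TopologicalSpace Topology Filter Set
open Pool.Agent.Helper18.CPC

namespace Pool.Agent.Helper36.CPC

universe u

theorem m_CP (h1 : hFN.{u}) (h2 : hIN.{u}) : hCP.{u} := by
  intro R _ _ _
  refine ⟨?_⟩
  rw [isCompact_iff_ultrafilter_le_nhds]
  intro U _
  by_cases hA : ∃ s : List (R × ℕ), D s ∈ (U : Filter (Pt R)) ∧
      ∀ c : R × ℕ, D (s ++ [c]) ∉ (U : Filter (Pt R))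
  · obtain ⟨s, hs, hc⟩ := hA
    obtain ⟨r, -, hr⟩ := isCompact_univ.ultrafilter_le_nhds
      (U.map (fun q : Pt R => val s.length q)) (by simp)
    exact ⟨fin s r, mem_univ _, h1 R U s r hs
      (fun c => Ultrafilter.compl_mem_iff_notMem.2 (hc c)) hr⟩
  · push Not at hA
    obtain ⟨c0, -⟩ := hA [] (by rw [D_nil]; exact univ_mem)
    have hne : Nonempty (R × ℕ) := ⟨c0⟩
    choose! c hc using hA
    let S : ℕ → List (R × ℕ) := fun n => Nat.rec [] (fun _ s => s ++ [c s]) n
    have hS0 : S 0 = [] := rfl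
    have hS1 : ∀ n, S (n + 1) = S n ++ [c (S n)] := fun _ => rfl
    obtain ⟨w, hw⟩ : ∃ w : ℕ → R × ℕ, w = fun n => c (S n) := ⟨_, rfl⟩
    have hpre : ∀ n, pre w n = S n := by
      intro n
      induction n with
      | zero => rfl
      | succ n ih => rw [pre_succ, hS1, ih, hw]
    have hmem : ∀ n, D (S n) ∈ (U : Filter (Pt R)) := by
      intro n
      induction n with
      | zero => rw [hS0, D_nil]; exact univ_mem
      | succ n ih => rw [hS1]; exact hc _ ih
    obtain ⟨x, -, hx⟩ := isCompact_univ.ultrafilter_le_nhds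
      (U.map (fun q : Pt R => G w q)) (by simp)
    exact ⟨inf w x, mem_univ _, h2 R U w x (fun n => by rw [hpre]; exact hmem n) hx⟩

end Pool.Agent.Helper36.CPC
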